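import Mathlib
import Pool.Agent.W5h23.CD.T

/-!
# `ζ(2n) / ζ(n) ^ 2` at many consecutive integers: common denominators

The known results on the rationality of `t(n) = ζ(2n) / ζ(n) ^ 2` for large `n` (starting files `ExponentialHeights`,
`RothTypeBound`, `SchmidtTypeMeasure`, `DigitsAndSUnits`) are about a fixed number of values `t(n), …, t(n + h)` and
denominators at most `C ^ n`. Here the number of the values grows with `n`, and the denominators are of the size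
`n ^ (c n)`.

(1) Let `ε > 0` and `n ≥ n₀(ε)`, and let `L ≥ 1` and `D ≥ 1` be integers with `D ^ (1/n) L ≤ n ^ (1 - ε)`. Then there are at
most `(1 + ε) D ^ (1/n)` integers `m ∈ [n, n + L]` for which `D t(m)` is an integer, or even at distance at most `n ^ (-n)`
from an integer. So for every set `E` of integers in `[n, n + L]`, `|E| L ≤ n ^ (1 - ε)`, for which the numbers `t(m)`,
`m ∈ E`, are rational, the least common denominator of these numbers is at least `(|E| / (1 + ε)) ^ n`; if all `t(m)`, `m` odd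
and `n ≤ m ≤ n + n ^ (1/2 - ε)`, are rational then their common denominator is at least `n ^ ((1/2 - 2 ε) n)`.

(2) The same in a number field `K` of degree `d`: if `δ ≠ 0` is an algebraic integer in `K` with all conjugates at most `H`
and `H ^ (d/n) L ≤ n ^ (1 - ε)`, then there are at most `(1 + ε) H ^ (d/n)` integers `m ∈ [n, n + L]` for which `δ t(m)` is an
algebraic integer in `K` with all conjugates at most `H`. Here `n ≥ n₀(ε, d)`, and everything else is arbitrary.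

Proof (`Pool.Agent.W5h23.CD`). `t(m) = ∑ a(k) k ^ (-m)` with `a(1) = 1` and nonzero integers `a(k)`. Let `S` be a set of `s` such
`m`. By Siegel's lemma there are integers `c_m`, `m ∈ S`, not all zero, of absolute value at most
`s ^ ((L + 1) / η)`, with `∑ c_m k ^ (-m) = 0` for `2 ≤ k ≤ (1 - η) s + 1`. By the rule of Descartes `∑ c_m k ^ (-m)` is different from
zero for some `k = j ≤ s + 1`, and if `s L` is small compared to `n` then the term of the first such `j` dominates the rest of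
`Λ = ∑_m c_m (t(m) - 1) = ∑_k a(k) ∑_m c_m k ^ (-m)`. So `Λ ≠ 0`, and `|Λ|` is at most about `((1 - η) s) ^ (-n)`.
-/

set_option autoImplicit false

open NumberField

namespace Pool.Agent.Results.MP_f1a024_nt.CommonDenominators

/-- `t(n) = ζ(2n) / ζ(n) ^ 2`, with the Riemann zeta function of Mathlib -/
noncomputable def t (n : ℕ) : ℂ := riemannZeta (2 * n) / riemannZeta n ^ 2

open Pool.Agent.TH507.ZS Pool.Agent.W5h23.CD in
lemma t_eq : ∃ n1 : ℕ, ∀ m : ℕ, n1 ≤ m → t m = ((FF (fun k => (tQ k : ℝ)) m : ℝ) : ℂ) := by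
  obtain ⟨n1, hn1⟩ := dser_t
  refine ⟨n1 + 3, fun m hm => ?_⟩
  have h1 : FF (fun k => (tQ k : ℝ)) m = dser tQ m := rfl
  rw [h1, hn1 m (by omega), t]
  push_cast
  rw [dser_z (by omega), dser_z (by omega)]
  push_cast
  rfl

theorem result (ε : ℝ) (hε : 0 < ε) (hε1 : ε ≤ 1) :
    (∃ n₀ : ℕ, ∀ n : ℕ, n₀ ≤ n → ∀ L D : ℕ, 1 ≤ L → 1 ≤ D →
      (D : ℝ) ^ (1 / (n : ℝ)) * L ≤ (n : ℝ) ^ (1 - ε) →
      ({m : ℕ | n ≤ m ∧ m ≤ n + L ∧ ∃ z : ℤ, ‖D * t m - z‖ ≤ 1 / (n : ℝ) ^ n}.ncard : ℝ) ≤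
        (1 + ε) * (D : ℝ) ^ (1 / (n : ℝ))) ∧
    (∀ d : ℕ, 1 ≤ d → ∃ n₀ : ℕ, ∀ n : ℕ, n₀ ≤ n → ∀ (K : Type) [Field K] [NumberField K],
      Module.finrank ℚ K = d → ∀ (ψ : K →+* ℂ) (L : ℕ) (H : ℝ) (δ : 𝓞 K), 1 ≤ L → 1 ≤ H → δ ≠ 0 →
      (∀ φ : K →+* ℂ, ‖φ δ‖ ≤ H) → H ^ ((d : ℝ) / n) * L ≤ (n : ℝ) ^ (1 - ε) →
      ({m : ℕ | n ≤ m ∧ m ≤ n + L ∧ ∃ x : 𝓞 K, ψ x = ψ δ * t m ∧
        ∀ φ : K →+* ℂ, ‖φ x‖ ≤ H}.ncard : ℝ) ≤ (1 + ε) * H ^ ((d : ℝ) / n)) := by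
  obtain ⟨A, hA⟩ := Pool.Agent.W5h23.CD.good_t
  obtain ⟨n1, hn1⟩ := t_eq
  have hfin : ∀ (n L : ℕ) (P : ℕ → Prop), {m : ℕ | n ≤ m ∧ m ≤ n + L ∧ P m}.Finite := fun n L P =>
    (Set.finite_Icc n (n + L)).subset fun m hm => ⟨hm.1, hm.2.1⟩
  constructor
  · obtain ⟨n2, hn2⟩ := Pool.Agent.W5h23.CD.near_int hA ε hε hε1
    refine ⟨n1 + n2, fun n hn L D hL hD hDL => ?_⟩
    rw [Set.ncard_eq_toFinset_card _ (hfin n L _)]
    refine hn2 n (by omega) L D hL hD hDL _ fun m hm => ?_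
    rw [Set.Finite.mem_toFinset] at hm
    obtain ⟨h1, h2, z, hz⟩ := hm
    refine ⟨h1, h2, z, ?_⟩
    rw [hn1 m (by omega)] at hz
    have h3 : (D : ℂ) * ((Pool.Agent.W5h23.CD.FF
        (fun k => (Pool.Agent.TH507.ZS.tQ k : ℝ)) m : ℝ) : ℂ) - z =
        ((D * Pool.Agent.W5h23.CD.FF (fun k => (Pool.Agent.TH507.ZS.tQ k : ℝ)) m - z : ℝ) : ℂ) := by
      push_cast
      rfl
    rw [h3, Complex.norm_real, Real.norm_eq_abs] at hz
    exact hz
  · intro d hd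
    obtain ⟨n2, hn2⟩ := Pool.Agent.W5h23.CD.number_field hA ε hε hε1 d hd
    refine ⟨n1 + n2, fun n hn K _ _ hK ψ L H δ hL hH hδ hδH hHL => ?_⟩
    rw [Set.ncard_eq_toFinset_card _ (hfin n L _)]
    refine hn2 n (by omega) K hK ψ L H δ hL hH hδ hδH hHL _ fun m hm => ?_
    rw [Set.Finite.mem_toFinset] at hm
    obtain ⟨h1, h2, x, hx1, hx2⟩ := hm
    refine ⟨h1, h2, x, ?_, hx2⟩
    rw [hx1, hn1 m (by omega)]

end Pool.Agent.Results.MP_f1a024_nt.CommonDenominators
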