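import Mathlib
import Pool.Agent.W5h65.GS.Ratio

set_option autoImplicit false

/-!
# `ζ(2n) / ζ(n)²` as a member of a family of ratios of cumulants

For a positive rational number `r` and `x = √r` let
`F_r(ε) = ∫_0^∞ s^ε sin (x s) e^(-s²) ds` and `H_r(ε) = ∫_0^∞ s^(1 + ε) cos (x s) e^(-s²) ds`, and let
`κ_n(r)` and `λ_n(r)` be the derivatives of order `n ≥ 1` of `log |F_r(ε)|` and `log |H_r(ε)|` at
`ε = 0`. Put
`T_r(n) = ((n - 1)!² / (2n - 1)!) κ_{2n}(r) / κ_n(r)²` and `T'_r(n) = ((n - 1)!² / (2n - 1)!) λ_{2n}(r) / λ_n(r)²`.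

(1) For `n ≥ 2` both `T_r(n)` and `T'_r(n)` converge to `t(n) = ζ(2n) / ζ(n)²` as `r → 0`, `r > 0` rational.

Let `c_1 = - γ / 2` and `c_n = (-1)^n (n - 1)! ζ(n) / 2^n` for `n ≥ 2`. For a set `N` of positive integers
let `K_N` be the field generated by `e`, all `F_r(0)` and all `κ_n(r) - c_n`, `λ_n(r) - c_n` with
`n ≥ 1` not in `N` (`r > 0` rational).

(2) For every odd `n ≥ 3` at most two of the numbers `t(n)`, `T_r(n)`, `T'_r(n)` (`r > 0` rational,
with nonzero denominators) are algebraic over `K_{n, 2n}`. In particular, if `t(n)` is rational or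
algebraic, then all but at most one of the numbers `T_r(n)`, `T'_r(n)` are transcendental.

(3) Let `O` be a finite or infinite set of odd integers `n ≥ 3` and let `E` be a set of even integers
`m ≥ 2` which contains `2n` for every `n` in `O`; let `K = K_{O ∪ E}`. Consider the numbers `ζ(2)`;
`T_r(n)`, `T'_r(n)`, `κ_n(r)`, `λ_n(r)` for `n` in `O`; `κ_m(r)`, `λ_m(r)` for `m` in `E`, `m ≠ 2n` for
all `n` in `O`. The number of those which are algebraic over `K` is at most
`1 +` the number of `n` in `O` for which `t(n)` is transcendental over `K`.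

In (2) and (3) numbers of different names are counted separately.
-/

namespace Pool.Agent.Results.MP_f1a024_nt.CumulantRatios

open Set Filter Topology

/-- the zeta value `ζ(s) = ∑ 1 / n^s` -/
noncomputable def zeta (s : ℕ) : ℝ := ∑' n : ℕ, 1 / ((n : ℝ) + 1) ^ s

/-- `t(n) = ζ(2n) / ζ(n)²` -/
noncomputable def t (n : ℕ) : ℝ := zeta (2 * n) / zeta n ^ 2

/-- `F_r(ε) = ∫_0^∞ s^ε sin (√r s) e^(-s²) ds` -/
noncomputable def F (r : ℚ) (ε : ℝ) : ℝ :=
  ∫ s in Ioi (0 : ℝ), s ^ ε * Real.sin (√(r : ℝ) * s) * Real.exp (-s ^ 2)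

/-- `H_r(ε) = ∫_0^∞ s^(1 + ε) cos (√r s) e^(-s²) ds` -/
noncomputable def H (r : ℚ) (ε : ℝ) : ℝ :=
  ∫ s in Ioi (0 : ℝ), s ^ (1 + ε) * Real.cos (√(r : ℝ) * s) * Real.exp (-s ^ 2)

/-- `κ_n(r)`, the derivative of order `n` of `log |F_r|` at `0` -/
noncomputable def kappa (n : ℕ) (r : ℚ) : ℝ := iteratedDeriv n (fun ε => Real.log |F r ε|) 0

/-- `λ_n(r)`, the derivative of order `n` of `log |H_r|` at `0` -/
noncomputable def lam (n : ℕ) (r : ℚ) : ℝ := iteratedDeriv n (fun ε => Real.log |H r ε|) 0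

/-- `T_r(n)` -/
noncomputable def T (n : ℕ) (r : ℚ) : ℝ :=
  ((n - 1).factorial : ℝ) ^ 2 / (2 * n - 1).factorial * (kappa (2 * n) r / kappa n r ^ 2)

/-- `T'_r(n)` -/
noncomputable def T' (n : ℕ) (r : ℚ) : ℝ :=
  ((n - 1).factorial : ℝ) ^ 2 / (2 * n - 1).factorial * (lam (2 * n) r / lam n r ^ 2)

/-- `c_1 = - γ / 2` and `c_n = (-1)^n (n - 1)! ζ(n) / 2^n` for `n ≥ 2` -/
noncomputable def gammaPart (n : ℕ) : ℝ :=
  if n = 1 then -Real.eulerMascheroniConstant / 2 else (-1) ^ n * (n - 1).factorial * zeta n / 2 ^ n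

/-- the names of the generators of the fields `K_N` -/
inductive Index : Type
  /-- `e` -/
  | e : Index
  /-- `F_r(0)` -/
  | f (r : ℚ) : Index
  /-- `κ_n(r) - c_n` -/
  | kappa (n : ℕ) (r : ℚ) : Index
  /-- `λ_n(r) - c_n` -/
  | lam (n : ℕ) (r : ℚ) : Index

/-- `r` is positive and `n` is at least `1` -/
def Index.Valid : Index → Prop
  | .e => True
  | .f r => 0 < r
  | .kappa n r => 1 ≤ n ∧ 0 < r
  | .lam n r => 1 ≤ n ∧ 0 < r

/-- the order of a number -/
def Index.order : Index → ℕ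
  | .e => 0
  | .f _ => 0
  | .kappa n _ => n
  | .lam n _ => n

/-- the numbers -/
noncomputable def number : Index → ℝ
  | .e => Real.exp 1
  | .f r => F r 0
  | .kappa n r => kappa n r - gammaPart n
  | .lam n r => lam n r - gammaPart n

/-- the field `K_N` -/
noncomputable def baseField (N : Set ℕ) : IntermediateField ℚ ℝ :=
  IntermediateField.adjoin ℚ (number '' {i | i.Valid ∧ i.order ∉ N})

/-- the names of `t(n)`, `T_r(n)`, `T'_r(n)` -/
inductive Member : Type
  /-- `t(n)` -/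
  | zero : Member
  /-- `T_r(n)` -/
  | sine (r : ℚ) : Member
  /-- `T'_r(n)` -/
  | cosine (r : ℚ) : Member

/-- `r` is positive and the denominator is not zero -/
def Member.Valid (n : ℕ) : Member → Prop
  | .zero => True
  | .sine r => 0 < r ∧ kappa n r ≠ 0
  | .cosine r => 0 < r ∧ lam n r ≠ 0

/-- the numbers -/
noncomputable def Member.value (n : ℕ) : Member → ℝ
  | .zero => t n
  | .sine r => T n r
  | .cosine r => T' n r

/-- the names of the numbers in (3) -/
inductive Name : Type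
  /-- `ζ(2)` -/
  | zetaTwo : Name
  /-- `T_r(n)` -/
  | ratio (n : ℕ) (r : ℚ) : Name
  /-- `T'_r(n)` -/
  | ratio' (n : ℕ) (r : ℚ) : Name
  /-- `κ_n(r)` -/
  | cumulant (n : ℕ) (r : ℚ) : Name
  /-- `λ_n(r)` -/
  | cumulant' (n : ℕ) (r : ℚ) : Name

/-- the conditions on `n` and `r` -/
def Name.Valid (O E : Set ℕ) : Name → Prop
  | .zetaTwo => True
  | .ratio n r => n ∈ O ∧ 0 < r ∧ kappa n r ≠ 0
  | .ratio' n r => n ∈ O ∧ 0 < r ∧ lam n r ≠ 0
  | .cumulant n r => (n ∈ O ∨ (n ∈ E ∧ ∀ k ∈ O, n ≠ 2 * k)) ∧ 0 < r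
  | .cumulant' n r => (n ∈ O ∨ (n ∈ E ∧ ∀ k ∈ O, n ≠ 2 * k)) ∧ 0 < r

/-- the numbers -/
noncomputable def Name.value : Name → ℝ
  | .zetaTwo => zeta 2
  | .ratio n r => T n r
  | .ratio' n r => T' n r
  | .cumulant n r => kappa n r
  | .cumulant' n r => lam n r

/-! ## Translation -/

open Pool.Agent.W5h65.GS in
theorem F_eq (r : ℚ) (ε : ℝ) : F r ε = FI (gS (√(r : ℝ))) 0 ε := by
  rw [F, FI]
  refine MeasureTheory.setIntegral_congr_fun measurableSet_Ioi fun s _ => ?_
  simp only [gS, pow_zero]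
  ring

open Pool.Agent.W5h65.GS in
theorem H_eq (r : ℚ) (ε : ℝ) : H r ε = FI (gC (√(r : ℝ))) 0 ε := by
  rw [H, FI]
  refine MeasureTheory.setIntegral_congr_fun measurableSet_Ioi fun s hs => ?_
  have hs' : (0 : ℝ) < s := hs
  simp only [gC, pow_zero]
  rw [Real.rpow_add hs', Real.rpow_one]
  ring

open Pool.Agent.W5h65.GS in
theorem kappa_eq (n : ℕ) (r : ℚ) : kappa n r = cum (gS (√(r : ℝ))) n := by
  rw [kappa, cum]
  congr 1
  funext ε
  rw [Real.log_abs, F_eq]

open Pool.Agent.W5h65.GS in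
theorem lam_eq (n : ℕ) (r : ℚ) : lam n r = cum (gC (√(r : ℝ))) n := by
  rw [lam, cum]
  congr 1
  funext ε
  rw [Real.log_abs, H_eq]

theorem gammaPart_eq {n : ℕ} (hn : 1 ≤ n) : gammaPart n = Pool.Agent.R352.E.cc (n - 1) / 2 ^ n := by
  rw [gammaPart]
  split_ifs with h
  · subst h
    simp [Pool.Agent.R352.E.cc]
  · obtain ⟨i, rfl⟩ : ∃ i, n = i + 2 := ⟨n - 2, by omega⟩
    have e1 : i + 2 - 1 = i + 1 := by omega
    rw [e1, Pool.Agent.R352.E.cc, pow_add (-1 : ℝ) i 2]
    simp only [zeta, Pool.Agent.R352.E.zt]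
    ring

/-- the encoding of the indices used in the proof -/
def enc : Index → Pool.Agent.W5h65.GS.I0
  | .e => none
  | .f r => some (r, Sum.inl 0)
  | .kappa n r => some (r, Sum.inl n)
  | .lam n r => some (r, Sum.inr (n - 1))

theorem enc_vld {i : Index} (h : i.Valid) : Pool.Agent.W5h65.GS.vld (enc i) := by
  cases i with
  | e => trivial
  | f r => exact h
  | kappa n r => exact h.2
  | lam n r => exact h.2

theorem enc_ord {i : Index} (h : i.Valid) : Pool.Agent.W5h65.GS.ord (enc i) = i.order := by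
  cases i with
  | e => rfl
  | f r => rfl
  | kappa n r => rfl
  | lam n r =>
    have := h.1
    show n - 1 + 1 = n
    omega

theorem enc_nm {i : Index} (h : i.Valid) : Pool.Agent.W5h65.GS.nm (enc i) = number i := by
  cases i with
  | e => rfl
  | f r => exact (F_eq r 0).symm
  | kappa n r =>
    have h1 : 1 ≤ n := h.1
    rw [number, gammaPart_eq h1, kappa_eq]
    obtain ⟨j, rfl⟩ : ∃ j, n = j + 1 := ⟨n - 1, by omega⟩
    rfl
  | lam n r =>
    have h1 : 1 ≤ n := h.1
    rw [number, gammaPart_eq h1, lam_eq]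
    obtain ⟨j, rfl⟩ : ∃ j, n = j + 1 := ⟨n - 1, by omega⟩
    rfl

open Pool.Agent.W5h65.GS (nm vld ord) in
theorem image_eq (N : Set ℕ) : number '' {i | i.Valid ∧ i.order ∉ N} = nm '' {i | vld i ∧ ord i ∉ N} := by
  ext z
  constructor
  · rintro ⟨i, ⟨hi, hiN⟩, rfl⟩
    exact ⟨enc i, ⟨enc_vld hi, by rw [enc_ord hi]; exact hiN⟩, enc_nm hi⟩
  · rintro ⟨i, ⟨hi, hiN⟩, rfl⟩
    rcases i with _ | ⟨r, j | j⟩
    · exact ⟨.e, ⟨trivial, hiN⟩, rfl⟩
    · cases j with
      | zero => exact ⟨.f r, ⟨hi, hiN⟩, F_eq r 0⟩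
      | succ j =>
        have hv : (Index.kappa (j + 1) r).Valid := ⟨by omega, hi⟩
        exact ⟨.kappa (j + 1) r, ⟨hv, hiN⟩, (enc_nm hv).symm⟩
    · have hv : (Index.lam (j + 1) r).Valid := ⟨by omega, hi⟩
      exact ⟨.lam (j + 1) r, ⟨hv, hiN⟩, (enc_nm hv).symm⟩

open Pool.Agent.W5h65.GS (nm vld ord) in
open Pool.Agent.R352.E (clF mem_clF) in
theorem mem_base {N : Set ℕ} {x : ℝ} :
    IsAlgebraic (baseField N) x ↔ x ∈ clF (nm '' {i | vld i ∧ ord i ∉ N}) := by
  rw [← image_eq]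
  exact mem_clF.symm

/-! ## The limits -/

theorem kappa_tendsto {n : ℕ} (hn : 1 ≤ n) : Tendsto (fun r : ℚ => kappa n r) (𝓝[>] 0) (𝓝 (gammaPart n)) := by
  have h := (Pool.Agent.W5h65.GS.rkS_tendsto (n - 1)).add_const (gammaPart n)
  rw [zero_add] at h
  refine h.congr fun r => ?_
  rw [kappa_eq, Pool.Agent.W5h65.GS.rk, gammaPart_eq hn, Nat.sub_add_cancel hn, sub_add_cancel]

theorem lam_tendsto {n : ℕ} (hn : 1 ≤ n) : Tendsto (fun r : ℚ => lam n r) (𝓝[>] 0) (𝓝 (gammaPart n)) := by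
  have h := (Pool.Agent.W5h65.GS.rkC_tendsto (n - 1)).add_const (gammaPart n)
  rw [zero_add] at h
  refine h.congr fun r => ?_
  rw [lam_eq, Pool.Agent.W5h65.GS.rk, gammaPart_eq hn, Nat.sub_add_cancel hn, sub_add_cancel]

theorem zeta_pos {n : ℕ} (hn : 2 ≤ n) : 0 < zeta n := Pool.Agent.W5h65.GS.zt_pos hn

theorem gammaPart_ne {n : ℕ} (hn : 2 ≤ n) : gammaPart n ≠ 0 := by
  have h1 := (zeta_pos hn).ne'
  rw [gammaPart, if_neg (by omega)]
  have h2 : ((n - 1).factorial : ℝ) ≠ 0 := by positivity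
  exact div_ne_zero (mul_ne_zero (mul_ne_zero (pow_ne_zero _ (by norm_num)) h2) h1) (by positivity)

theorem limit_eq {n : ℕ} (hn : 2 ≤ n) :
    ((n - 1).factorial : ℝ) ^ 2 / (2 * n - 1).factorial * (gammaPart (2 * n) / gammaPart n ^ 2) = t n := by
  have h1 := (zeta_pos hn).ne'
  have h2 : ((n - 1).factorial : ℝ) ≠ 0 := by positivity
  have h3 : ((2 * n - 1).factorial : ℝ) ≠ 0 := by positivity
  rw [gammaPart, gammaPart, if_neg (by omega), if_neg (by omega), t, pow_mul (-1 : ℝ) 2 n]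
  have e : ((-1 : ℝ) ^ n * (n - 1).factorial * zeta n / 2 ^ n) ^ 2 = ((n - 1).factorial * zeta n) ^ 2 / 2 ^ (2 * n) := by
    rw [div_pow, ← pow_mul, mul_comm n 2, mul_assoc, mul_pow, ← pow_mul, mul_comm n 2, pow_mul]
    norm_num
  rw [e]
  norm_num
  field_simp

theorem part1 {n : ℕ} (hn : 2 ≤ n) : Tendsto (fun r : ℚ => T n r) (𝓝[>] 0) (𝓝 (t n)) ∧
    Tendsto (fun r : ℚ => T' n r) (𝓝[>] 0) (𝓝 (t n)) := by
  constructor
  · rw [← limit_eq hn]
    exact (((kappa_tendsto (by omega)).div ((kappa_tendsto (by omega)).pow 2)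
      (pow_ne_zero _ (gammaPart_ne hn))).const_mul _)
  · rw [← limit_eq hn]
    exact (((lam_tendsto (by omega)).div ((lam_tendsto (by omega)).pow 2)
      (pow_ne_zero _ (gammaPart_ne hn))).const_mul _)

/-! ## The count -/

/-- the encoding of the names -/
def encN : Name → Option Pool.Agent.W5h65.GS.I0
  | .zetaTwo => none
  | .ratio n r => some (some (r, Sum.inl (2 * n)))
  | .ratio' n r => some (some (r, Sum.inr (2 * n - 1)))
  | .cumulant n r => some (some (r, Sum.inl n))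
  | .cumulant' n r => some (some (r, Sum.inr (n - 1)))

section

variable {O E : Set ℕ} (hO : ∀ n ∈ O, Odd n ∧ 3 ≤ n) (hE : ∀ m ∈ E, Even m ∧ 2 ≤ m) (hOE : ∀ n ∈ O, 2 * n ∈ E)

include hO in
theorem not_two {m : ℕ} (h : m ∈ O ∨ (m ∈ E ∧ ∀ k ∈ O, m ≠ 2 * k)) (k : ℕ) (hk : k ∈ O) : m ≠ 2 * k := by
  rcases h with h | h
  · intro e
    have h1 := (hO m h).1
    rw [e] at h1
    exact (Nat.not_odd_iff_even.2 (even_two_mul k)) h1
  · exact h.2 k hk

include hO hE in
theorem two_le {m : ℕ} (h : m ∈ O ∨ (m ∈ E ∧ ∀ k ∈ O, m ≠ 2 * k)) : 2 ≤ m := by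
  rcases h with h | h
  · have := (hO m h).2; omega
  · exact (hE m h.1).2

include hO hE in
theorem encN_inj {i j : Name} (hi : i.Valid O E) (hj : j.Valid O E) (h : encN i = encN j) : i = j := by
  have h3 : ∀ n ∈ O, 3 ≤ n := fun n hn => (hO n hn).2
  cases i with
  | zetaTwo => cases j <;> simp [encN] at h ⊢
  | ratio n r =>
    cases j with
    | zetaTwo => simp [encN] at h
    | ratio n' r' =>
      simp only [encN, Option.some.injEq, Prod.mk.injEq, Sum.inl.injEq] at h
      obtain ⟨rfl, h2⟩ := h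
      have : n = n' := by omega
      rw [this]
    | ratio' n' r' => simp [encN] at h
    | cumulant n' r' =>
      simp only [encN, Option.some.injEq, Prod.mk.injEq, Sum.inl.injEq] at h
      exact absurd h.2.symm (not_two hO hj.1 n hi.1)
    | cumulant' n' r' => simp [encN] at h
  | ratio' n r =>
    cases j with
    | zetaTwo => simp [encN] at h
    | ratio n' r' => simp [encN] at h
    | ratio' n' r' =>
      simp only [encN, Option.some.injEq, Prod.mk.injEq, Sum.inr.injEq] at h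
      obtain ⟨rfl, h2⟩ := h
      have := h3 n hi.1
      have := h3 n' hj.1
      have : n = n' := by omega
      rw [this]
    | cumulant n' r' => simp [encN] at h
    | cumulant' n' r' =>
      simp only [encN, Option.some.injEq, Prod.mk.injEq, Sum.inr.injEq] at h
      have h4 := two_le hO hE hj.1
      have h5 := h3 n hi.1
      exact absurd (show n' = 2 * n by omega) (not_two hO hj.1 n hi.1)
  | cumulant n r =>
    cases j with
    | zetaTwo => simp [encN] at h
    | ratio n' r' =>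
      simp only [encN, Option.some.injEq, Prod.mk.injEq, Sum.inl.injEq] at h
      exact absurd h.2 (not_two hO hi.1 n' hj.1)
    | ratio' n' r' => simp [encN] at h
    | cumulant n' r' =>
      simp only [encN, Option.some.injEq, Prod.mk.injEq, Sum.inl.injEq] at h
      rw [h.1, h.2]
    | cumulant' n' r' => simp [encN] at h
  | cumulant' n r =>
    cases j with
    | zetaTwo => simp [encN] at h
    | ratio n' r' => simp [encN] at h
    | ratio' n' r' =>
      simp only [encN, Option.some.injEq, Prod.mk.injEq, Sum.inr.injEq] at h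
      have h4 := two_le hO hE hi.1
      have h5 := h3 n' hj.1
      exact absurd (show n = 2 * n' by omega) (not_two hO hi.1 n' hj.1)
    | cumulant n' r' => simp [encN] at h
    | cumulant' n' r' =>
      simp only [encN, Option.some.injEq, Prod.mk.injEq, Sum.inr.injEq] at h
      obtain ⟨rfl, h2⟩ := h
      have h4 := two_le hO hE hi.1
      have h5 := two_le hO hE hj.1
      have : n = n' := by omega
      rw [this]

open Pool.Agent.W5h65.GS (I0 yy cm half qf ord cum gC gS) in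
include hO hE in
theorem encN_value {i : Name} (hi : i.Valid O E) : Option.elim (encN i) (Pool.Agent.R352.E.zt 2) (yy O) = i.value := by
  cases i with
  | zetaTwo => rfl
  | ratio n r =>
    have h0 : cm (half (some (r, Sum.inl (2 * n)))) = kappa n r := by
      show cum (gS (√(r : ℝ))) (2 * n / 2) = kappa n r
      rw [kappa_eq, Nat.mul_div_cancel_left n (by norm_num)]
    show yy O (some (r, Sum.inl (2 * n))) = T n r
    rw [yy, if_pos ⟨⟨n, hi.1, rfl⟩, by rw [h0]; exact hi.2.2⟩, h0]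
    show qf (2 * n / 2) * (cum (gS (√(r : ℝ))) (2 * n) / kappa n r ^ 2) = T n r
    rw [Nat.mul_div_cancel_left n (by norm_num), ← kappa_eq, T, qf]
  | ratio' n r =>
    have h3 := (hO n hi.1).2
    have e1 : 2 * n - 1 + 1 = 2 * n := by omega
    have e2 : n - 1 + 1 = n := by omega
    have h0 : cm (half (some (r, Sum.inr (2 * n - 1)))) = lam n r := by
      show cum (gC (√(r : ℝ))) ((2 * n - 1 + 1) / 2 - 1 + 1) = lam n r
      rw [lam_eq, e1, Nat.mul_div_cancel_left n (by norm_num), e2]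
    show yy O (some (r, Sum.inr (2 * n - 1))) = T' n r
    rw [yy, if_pos ⟨⟨n, hi.1, e1⟩, by rw [h0]; exact hi.2.2⟩, h0]
    show qf ((2 * n - 1 + 1) / 2) * (cum (gC (√(r : ℝ))) (2 * n - 1 + 1) / lam n r ^ 2) = T' n r
    rw [e1, Nat.mul_div_cancel_left n (by norm_num), ← lam_eq, T', qf]
  | cumulant n r =>
    show yy O (some (r, Sum.inl n)) = kappa n r
    rw [yy, if_neg]
    · exact (kappa_eq n r).symm
    · rintro ⟨⟨k, hk, h⟩, -⟩
      exact not_two hO hi.1 k hk h
  | cumulant' n r =>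
    have h2 := two_le hO hE hi.1
    have e2 : n - 1 + 1 = n := by omega
    show yy O (some (r, Sum.inr (n - 1))) = lam n r
    rw [yy, if_neg]
    · show cum (gC (√(r : ℝ))) (n - 1 + 1) = lam n r
      rw [e2, lam_eq]
    · rintro ⟨⟨k, hk, h⟩, -⟩
      exact not_two hO hi.1 k hk (by rw [← h]; exact e2.symm)

include hO hE hOE in
open Pool.Agent.W5h65.GS (I0 yy vld ord) in
theorem encN_valid {i : Name} (hi : i.Valid O E) (k : I0) (h : encN i = some k) : vld k ∧ ord k ∈ O ∪ E := by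
  cases i with
  | zetaTwo => simp [encN] at h
  | ratio n r =>
    obtain rfl : some (r, Sum.inl (2 * n)) = k := by simpa [encN] using h
    exact ⟨hi.2.1, Or.inr (hOE n hi.1)⟩
  | ratio' n r =>
    obtain rfl : some (r, Sum.inr (2 * n - 1)) = k := by simpa [encN] using h
    have h3 := (hO n hi.1).2
    refine ⟨hi.2.1, Or.inr ?_⟩
    show 2 * n - 1 + 1 ∈ E
    rw [show 2 * n - 1 + 1 = 2 * n by omega]
    exact hOE n hi.1
  | cumulant n r =>
    obtain rfl : some (r, Sum.inl n) = k := by simpa [encN] using h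
    refine ⟨hi.2, ?_⟩
    rcases hi.1 with h1 | h1
    · exact Or.inl h1
    · exact Or.inr h1.1
  | cumulant' n r =>
    obtain rfl : some (r, Sum.inr (n - 1)) = k := by simpa [encN] using h
    have h2 := two_le hO hE hi.1
    refine ⟨hi.2, ?_⟩
    show n - 1 + 1 ∈ O ∪ E
    rw [show n - 1 + 1 = n by omega]
    rcases hi.1 with h1 | h1
    · exact Or.inl h1
    · exact Or.inr h1.1

include hO hE hOE in
theorem part3 : {i : Name | i.Valid O E ∧ IsAlgebraic (baseField (O ∪ E)) i.value}.encard ≤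
    1 + {n | n ∈ O ∧ ¬ IsAlgebraic (baseField (O ∪ E)) (t n)}.encard := by
  classical
  set K := Pool.Agent.R352.E.clF (Pool.Agent.W5h65.GS.nm ''
    {i | Pool.Agent.W5h65.GS.vld i ∧ Pool.Agent.W5h65.GS.ord i ∉ O ∪ E}) with hK
  have hD : {n | n ∈ O ∧ ¬ IsAlgebraic (baseField (O ∪ E)) (t n)} = {n | n ∈ O ∧ Pool.Agent.W5h65.GS.tt n ∉ K} := by
    ext n
    simp only [mem_ofPred_eq, mem_base]
    rfl
  rw [hD]
  -- reduction to finite sets of names
  have hfin : ∀ s : Finset Name, (s : Set Name) ⊆ {i : Name | i.Valid O E ∧ IsAlgebraic (baseField (O ∪ E)) i.value} →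
      (s.card : ℕ∞) ≤ 1 + {n | n ∈ O ∧ Pool.Agent.W5h65.GS.tt n ∉ K}.encard := by
    intro s hs
    have hinj : Set.InjOn encN (s : Set Name) := fun i hi j hj h => encN_inj hO hE (hs hi).1 (hs hj).1 h
    have h := Pool.Agent.W5h65.GS.count_ratio O E hO hE K rfl (s.image encN) (fun k hk => ?_) (fun k hk => ?_)
    · rwa [Finset.card_image_of_injOn hinj] at h
    · obtain ⟨i, hi, rfl⟩ := Finset.mem_image.1 hk
      rw [encN_value hO hE (hs hi).1]
      exact mem_base.1 (hs hi).2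
    · obtain ⟨i, hi, hik⟩ := Finset.mem_image.1 hk
      exact encN_valid hO hE hOE (hs hi).1 k hik
  rcases eq_or_ne {n | n ∈ O ∧ Pool.Agent.W5h65.GS.tt n ∉ K}.encard ⊤ with htop | htop
  · rw [htop, add_top]; exact le_top
  · obtain ⟨d, hd⟩ := ENat.ne_top_iff_exists.1 htop
    rw [← hd] at hfin ⊢
    have := Pool.Agent.R352.E.encard_le_of_finset
      {i : Name | i.Valid O E ∧ IsAlgebraic (baseField (O ∪ E)) i.value} (1 + d) (fun s hs => by exact_mod_cast hfin s hs)
    exact_mod_cast this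

end

/-- the members as names -/
def toName (n : ℕ) : Member → Name
  | .zero => .zetaTwo
  | .sine r => .ratio n r
  | .cosine r => .ratio' n r

theorem part2 {n : ℕ} (hn : Odd n) (hn3 : 3 ≤ n) :
    {i : Member | i.Valid n ∧ IsAlgebraic (baseField {n, 2 * n}) (i.value n)}.encard ≤ 2 := by
  classical
  have hU : ({n} ∪ {2 * n} : Set ℕ) = {n, 2 * n} := rfl
  have h := part3 (O := {n}) (E := {2 * n}) (fun k hk => by
      have : k = n := hk
      rw [this]; exact ⟨hn, hn3⟩) (fun m hm => by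
      have : m = 2 * n := hm
      rw [this]; exact ⟨even_two_mul n, by omega⟩) (fun k hk => by
      have : k = n := hk
      rw [this]; exact rfl)
  rw [hU] at h
  set A : Set Member := {i | i.Valid n ∧ IsAlgebraic (baseField {n, 2 * n}) (i.value n)} with hA
  set A' : Set Name := {i | i.Valid {n} {2 * n} ∧ IsAlgebraic (baseField {n, 2 * n}) i.value} with hA'
  have hinj : Function.Injective (toName n) := by
    intro i j hij
    cases i <;> cases j <;> simp_all [toName]
  have h1 : (A \ {Member.zero}).encard ≤ A'.encard := by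
    have h2 : toName n '' (A \ {Member.zero}) ⊆ A' := by
      rintro _ ⟨i, ⟨hi, hi0⟩, rfl⟩
      cases i with
      | zero => exact absurd rfl hi0
      | sine r => exact ⟨⟨rfl, hi.1.1, hi.1.2⟩, hi.2⟩
      | cosine r => exact ⟨⟨rfl, hi.1.1, hi.1.2⟩, hi.2⟩
    rw [← hinj.encard_image]
    exact encard_le_encard h2
  by_cases h0 : Member.zero ∈ A
  · have hD : {k | k ∈ ({n} : Set ℕ) ∧ ¬ IsAlgebraic (baseField {n, 2 * n}) (t k)} = ∅ := by
      ext k
      simp only [mem_ofPred_eq, mem_empty_iff_false, iff_false, not_and, not_not]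
      intro hk
      have : k = n := hk
      rw [this]
      exact h0.2
    rw [hD, encard_empty, add_zero] at h
    have h3 := encard_sdiff_singleton_add_one h0
    rw [← h3]
    calc (A \ {Member.zero}).encard + 1 ≤ 1 + 1 := add_le_add (h1.trans h) le_rfl
      _ = 2 := by norm_num
  · have h3 : A \ {Member.zero} = A := sdiff_singleton_eq_self h0
    rw [h3] at h1
    refine h1.trans (h.trans ?_)
    have h4 : {k | k ∈ ({n} : Set ℕ) ∧ ¬ IsAlgebraic (baseField {n, 2 * n}) (t k)}.encard ≤ 1 :=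
      (encard_le_encard (fun k hk => hk.1)).trans (encard_singleton n).le
    calc 1 + {k | k ∈ ({n} : Set ℕ) ∧ ¬ IsAlgebraic (baseField {n, 2 * n}) (t k)}.encard ≤ 1 + 1 :=
          add_le_add le_rfl h4
      _ = 2 := by norm_num

theorem result :
    -- (1)
    (∀ n : ℕ, 2 ≤ n → Tendsto (fun r : ℚ => T n r) (𝓝[>] 0) (𝓝 (t n)) ∧
      Tendsto (fun r : ℚ => T' n r) (𝓝[>] 0) (𝓝 (t n))) ∧
    -- (2)
    (∀ n : ℕ, Odd n → 3 ≤ n →
      {i : Member | i.Valid n ∧ IsAlgebraic (baseField {n, 2 * n}) (i.value n)}.encard ≤ 2) ∧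
    -- (3)
    (∀ O E : Set ℕ, (∀ n ∈ O, Odd n ∧ 3 ≤ n) → (∀ m ∈ E, Even m ∧ 2 ≤ m) → (∀ n ∈ O, 2 * n ∈ E) →
      {i : Name | i.Valid O E ∧ IsAlgebraic (baseField (O ∪ E)) i.value}.encard ≤
        1 + {n | n ∈ O ∧ ¬ IsAlgebraic (baseField (O ∪ E)) (t n)}.encard) :=
  ⟨fun _ hn => part1 hn, fun _ hn hn3 => part2 hn hn3, fun _ _ hO hE hOE => part3 hO hE hOE⟩

end Pool.Agent.Results.MP_f1a024_nt.CumulantRatios
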