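import Mathlib
import Pool.Agent.W5h34.NR.Ratio

set_option autoImplicit false

/-!
# `ζ(2n) / ζ(n)²` and the cumulants of noncentral chi-square laws

Let `I(u) = ∑ u^k / k!²`. For a rational number `r` let `G_r(ε) = ∫_0^∞ s^ε e^(-s) I(r s) ds` (so `G_0(ε) = Γ(1 + ε)`),
and let `κ_n(r)` be the derivative of order `n ≥ 1` of `log |G_r(ε)|` at `ε = 0` (for `r ≥ 0` the cumulant of order `n`
of `log |Z + √r|²`, where `Z` is a standard complex Gaussian variable). Put
`T_r(n) = ((n - 1)!² / (2n - 1)!) κ_{2n}(r) / κ_n(r)²`.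

(0) For `n ≥ 2` the member `T_0(n)` is `t(n) = ζ(2n) / ζ(n)²`, and `T_r(n)` converges to `t(n)` as `r → 0`, `r` rational.

For a set `N` of positive integers let `K_N` be the field generated by `e` and all `κ_n(r) - κ_n(0)` with `n ≥ 1` not in
`N`, `r` rational.

(1) For every odd `n ≥ 3` there are at most two rational numbers `r` (`0` allowed: it stands for `t(n)`) with
`κ_n(r) ≠ 0` and `T_r(n)` algebraic over `K_{n, 2n}`. So if `t(n)` is rational, then all but at most one of the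
numbers `T_r(n)`, `r ≠ 0`, are transcendental over `K_{n, 2n}`.

(2) Let `O` be a finite or infinite set of odd integers `n ≥ 3` and `E` a set of even integers `m ≥ 2` which contains
`2n` for every `n` in `O`; let `K = K_{O ∪ E}`. Consider the numbers `ζ(2)`; `T_r(n)`, `κ_n(r)` for `n` in `O`; `κ_m(r)`
for `m` in `E`, `m ≠ 2n` for all `n` in `O` (`r ≠ 0` rational, `κ_n(r) ≠ 0` in `T_r(n)`). At most
`1 +` the number of `n` in `O` for which `t(n)` is transcendental over `K` of them are algebraic over `K`.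

(3) Let `O` be a finite set of odd integers `n ≥ 3`, `E = {2n : n ∈ O}`. At most `|O| + 1` of the pairs `(n, r)`, `n`
in `O`, `r` rational (`0` allowed), `κ_n(r) ≠ 0`, have `T_r(n)` algebraic over `K_{O ∪ E}`. So if `t(n)` is rational
for all `n` in `O`, then at most one of the numbers `T_r(n)`, `n` in `O`, `r ≠ 0`, is algebraic over `K_{O ∪ E}`.

Numbers of different names are counted separately.
-/

namespace Pool.Agent.Results.MP_f1a024_nt.NoncentralRatios

open Set Filter Topology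

/-- the zeta value `ζ(s) = ∑ 1 / n^s` -/
noncomputable def zeta (s : ℕ) : ℝ := ∑' n : ℕ, 1 / ((n : ℝ) + 1) ^ s

/-- `t(n) = ζ(2n) / ζ(n)²` -/
noncomputable def t (n : ℕ) : ℝ := zeta (2 * n) / zeta n ^ 2

/-- `I(u) = ∑ u^k / k!²` -/
noncomputable def besselI (u : ℝ) : ℝ := ∑' k : ℕ, u ^ k / (k.factorial : ℝ) ^ 2

/-- `G_r(ε) = ∫_0^∞ s^ε e^(-s) I(r s) ds` -/
noncomputable def G (r : ℚ) (ε : ℝ) : ℝ :=
  ∫ s in Ioi (0 : ℝ), s ^ ε * Real.exp (-s) * besselI (r * s)

/-- `κ_n(r)`, the derivative of order `n` of `log |G_r|` at `0` -/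
noncomputable def kappa (n : ℕ) (r : ℚ) : ℝ := iteratedDeriv n (fun ε => Real.log |G r ε|) 0

/-- `T_r(n)` -/
noncomputable def T (n : ℕ) (r : ℚ) : ℝ :=
  ((n - 1).factorial : ℝ) ^ 2 / (2 * n - 1).factorial * (kappa (2 * n) r / kappa n r ^ 2)

/-- the names of the generators of the fields `K_N` -/
inductive Index : Type
  /-- `e` -/
  | e : Index
  /-- `κ_n(r) - κ_n(0)` -/
  | kappa (n : ℕ) (r : ℚ) : Index

/-- `r` is not `0` and `n` is at least `1` -/
def Index.Valid : Index → Prop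
  | .e => True
  | .kappa n r => 1 ≤ n ∧ r ≠ 0

/-- the order of a number -/
def Index.order : Index → ℕ
  | .e => 0
  | .kappa n _ => n

/-- the numbers -/
noncomputable def number : Index → ℝ
  | .e => Real.exp 1
  | .kappa n r => kappa n r - kappa n 0

/-- the field `K_N` -/
noncomputable def baseField (N : Set ℕ) : IntermediateField ℚ ℝ :=
  IntermediateField.adjoin ℚ (number '' {i | i.Valid ∧ i.order ∉ N})

/-- the names of the numbers in (2) -/
inductive Name : Type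
  /-- `ζ(2)` -/
  | zetaTwo : Name
  /-- `T_r(n)` -/
  | ratio (n : ℕ) (r : ℚ) : Name
  /-- `κ_n(r)` -/
  | cumulant (n : ℕ) (r : ℚ) : Name

/-- the conditions on `n` and `r` -/
def Name.Valid (O E : Set ℕ) : Name → Prop
  | .zetaTwo => True
  | .ratio n r => n ∈ O ∧ r ≠ 0 ∧ kappa n r ≠ 0
  | .cumulant n r => (n ∈ O ∨ (n ∈ E ∧ ∀ k ∈ O, n ≠ 2 * k)) ∧ r ≠ 0

/-- the numbers -/
noncomputable def Name.value : Name → ℝ
  | .zetaTwo => zeta 2
  | .ratio n r => T n r
  | .cumulant n r => kappa n r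

/-! ## Translation -/

open Pool.Agent.W5h65.GS Pool.Agent.W5h65.NC in
theorem G_eq (r : ℚ) (ε : ℝ) : G r ε = FI (gN (r : ℝ)) 0 ε := by
  rw [G, FI]
  refine MeasureTheory.setIntegral_congr_fun measurableSet_Ioi fun s _ => ?_
  simp only [gN, pow_zero, besselI, bess]
  ring

open Pool.Agent.W5h65.GS Pool.Agent.W5h65.NC in
theorem kappa_eq (n : ℕ) (r : ℚ) : kappa n r = cum (gN (r : ℝ)) n := by
  rw [kappa, cum]
  congr 1
  funext ε
  rw [Real.log_abs, G_eq]

theorem kappa_zero {n : ℕ} (hn : 1 ≤ n) : kappa n 0 = Pool.Agent.R352.E.cc (n - 1) := by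
  have h := Pool.Agent.W5h65.NC.rk_zero (n - 1)
  rw [Pool.Agent.W5h65.NC.rk, Nat.sub_add_cancel hn] at h
  rw [kappa_eq, Rat.cast_zero]
  linarith

theorem kappa_zero' {n : ℕ} (hn : 2 ≤ n) : kappa n 0 = (-1) ^ n * (n - 1).factorial * zeta n := by
  rw [kappa_zero (by omega)]
  obtain ⟨i, rfl⟩ : ∃ i, n = i + 2 := ⟨n - 2, by omega⟩
  have e1 : i + 2 - 1 = i + 1 := by omega
  rw [e1, Pool.Agent.R352.E.cc, pow_add (-1 : ℝ) i 2]
  simp only [zeta, Pool.Agent.R352.E.zt]
  ring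

/-- the encoding of the indices used in the proof -/
def enc : Index → Pool.Agent.W5h65.NC.IN
  | .e => none
  | .kappa n r => some (n - 1, r)

theorem enc_vld {i : Index} (h : i.Valid) : Pool.Agent.W5h65.NC.vld (enc i) := by
  cases i with
  | e => trivial
  | kappa n r => exact h.2

theorem enc_ord {i : Index} (h : i.Valid) : Pool.Agent.W5h65.NC.ord (enc i) = i.order := by
  cases i with
  | e => rfl
  | kappa n r => exact Nat.sub_add_cancel h.1

theorem enc_nm {i : Index} (h : i.Valid) : Pool.Agent.W5h65.NC.nm (enc i) = number i := by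
  cases i with
  | e => rfl
  | kappa n r =>
    have h1 : 1 ≤ n := h.1
    rw [number, kappa_zero h1, kappa_eq]
    show Pool.Agent.W5h65.NC.rk (r : ℝ) (n - 1) = _
    rw [Pool.Agent.W5h65.NC.rk, Nat.sub_add_cancel h1]

open Pool.Agent.W5h65.NC (nm vld ord) in
theorem image_eq (N : Set ℕ) : number '' {i | i.Valid ∧ i.order ∉ N} = nm '' {i | vld i ∧ ord i ∉ N} := by
  ext z
  constructor
  · rintro ⟨i, ⟨hi, hiN⟩, rfl⟩
    exact ⟨enc i, ⟨enc_vld hi, by rw [enc_ord hi]; exact hiN⟩, enc_nm hi⟩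
  · rintro ⟨i, ⟨hi, hiN⟩, rfl⟩
    rcases i with _ | ⟨j, r⟩
    · exact ⟨.e, ⟨trivial, hiN⟩, rfl⟩
    · have hv : (Index.kappa (j + 1) r).Valid := ⟨by omega, hi⟩
      exact ⟨.kappa (j + 1) r, ⟨hv, hiN⟩, (enc_nm hv).symm⟩

open Pool.Agent.W5h65.NC (nm vld ord) in
open Pool.Agent.R352.E (clF mem_clF) in
theorem mem_base {N : Set ℕ} {x : ℝ} :
    IsAlgebraic (baseField N) x ↔ x ∈ clF (nm '' {i | vld i ∧ ord i ∉ N}) := by
  rw [← image_eq]
  exact mem_clF.symm

/-! ## The member `r = 0` and the limit -/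

theorem zeta_pos {n : ℕ} (hn : 2 ≤ n) : 0 < zeta n := Pool.Agent.W5h65.GS.zt_pos hn

theorem kappa_zero_ne {n : ℕ} (hn : 2 ≤ n) : kappa n 0 ≠ 0 := by
  have h1 := (zeta_pos hn).ne'
  rw [kappa_zero' hn]
  have h2 : ((n - 1).factorial : ℝ) ≠ 0 := by positivity
  exact mul_ne_zero (mul_ne_zero (pow_ne_zero _ (by norm_num)) h2) h1

theorem T_zero {n : ℕ} (hn : 2 ≤ n) : T n 0 = t n := by
  have h1 := (zeta_pos hn).ne'
  have h2 : ((n - 1).factorial : ℝ) ≠ 0 := by positivity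
  have h3 : ((2 * n - 1).factorial : ℝ) ≠ 0 := by positivity
  rw [T, kappa_zero' (n := 2 * n) (by omega), kappa_zero' hn, t, pow_mul (-1 : ℝ) 2 n]
  have e : ((-1 : ℝ) ^ n * (n - 1).factorial * zeta n) ^ 2 = ((n - 1).factorial * zeta n) ^ 2 := by
    rw [mul_assoc, mul_pow, ← pow_mul, mul_comm n 2, pow_mul]
    norm_num
  rw [e]
  norm_num
  field_simp

theorem kappa_tendsto {n : ℕ} (hn : 1 ≤ n) : Tendsto (fun r : ℚ => kappa n r) (𝓝 0) (𝓝 (kappa n 0)) := by
  have h := (Pool.Agent.W5h34.NR.rk_tendsto (n - 1)).add_const (kappa n 0)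
  rw [zero_add] at h
  refine h.congr fun r => ?_
  rw [kappa_eq n r, Pool.Agent.W5h65.NC.rk, kappa_zero hn, Nat.sub_add_cancel hn, sub_add_cancel]

theorem part0 {n : ℕ} (hn : 2 ≤ n) : T n 0 = t n ∧ Tendsto (fun r : ℚ => T n r) (𝓝 0) (𝓝 (t n)) := by
  refine ⟨T_zero hn, ?_⟩
  rw [← T_zero hn]
  exact (((kappa_tendsto (by omega)).div ((kappa_tendsto (by omega)).pow 2)
      (pow_ne_zero _ (kappa_zero_ne hn))).const_mul _)

/-! ## The count -/

/-- the encoding of the names -/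
def encN : Name → Option Pool.Agent.W5h65.NC.IN
  | .zetaTwo => none
  | .ratio n r => some (some (2 * n - 1, r))
  | .cumulant n r => some (some (n - 1, r))

section

variable {O E : Set ℕ} (hO : ∀ n ∈ O, Odd n ∧ 3 ≤ n) (hE : ∀ m ∈ E, Even m ∧ 2 ≤ m) (hOE : ∀ n ∈ O, 2 * n ∈ E)

include hO in
theorem not_two {m : ℕ} (h : m ∈ O ∨ (m ∈ E ∧ ∀ k ∈ O, m ≠ 2 * k)) (k : ℕ) (hk : k ∈ O) : m ≠ 2 * k := by
  rcases h with h | h
  · intro e
    have h1 := (hO m h).1
    rw [e] at h1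
    exact (Nat.not_odd_iff_even.2 (even_two_mul k)) h1
  · exact h.2 k hk

include hO hE in
theorem two_le {m : ℕ} (h : m ∈ O ∨ (m ∈ E ∧ ∀ k ∈ O, m ≠ 2 * k)) : 2 ≤ m := by
  rcases h with h | h
  · have := (hO m h).2; omega
  · exact (hE m h.1).2

include hO hE in
theorem encN_inj {i j : Name} (hi : i.Valid O E) (hj : j.Valid O E) (h : encN i = encN j) : i = j := by
  have h3 : ∀ n ∈ O, 3 ≤ n := fun n hn => (hO n hn).2
  cases i with
  | zetaTwo => cases j <;> simp [encN] at h ⊢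
  | ratio n r =>
    cases j with
    | zetaTwo => simp [encN] at h
    | ratio n' r' =>
      simp only [encN, Option.some.injEq, Prod.mk.injEq] at h
      obtain ⟨h1, rfl⟩ := h
      have := h3 n hi.1
      have := h3 n' hj.1
      have : n = n' := by omega
      rw [this]
    | cumulant n' r' =>
      simp only [encN, Option.some.injEq, Prod.mk.injEq] at h
      have h4 := two_le hO hE hj.1
      have h5 := h3 n hi.1
      exact absurd (show n' = 2 * n by have := h.1; omega) (not_two hO hj.1 n hi.1)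
  | cumulant n r =>
    cases j with
    | zetaTwo => simp [encN] at h
    | ratio n' r' =>
      simp only [encN, Option.some.injEq, Prod.mk.injEq] at h
      have h4 := two_le hO hE hi.1
      have h5 := h3 n' hj.1
      exact absurd (show n = 2 * n' by have := h.1; omega) (not_two hO hi.1 n' hj.1)
    | cumulant n' r' =>
      simp only [encN, Option.some.injEq, Prod.mk.injEq] at h
      obtain ⟨h1, rfl⟩ := h
      have h4 := two_le hO hE hi.1
      have h5 := two_le hO hE hj.1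
      have : n = n' := by omega
      rw [this]

open Pool.Agent.W5h65.NC (IN cm ord gN) in
open Pool.Agent.W5h65.GS (cum qf) in
open Pool.Agent.W5h34.NR (yy half) in
include hO hE in
theorem encN_value {i : Name} (hi : i.Valid O E) : Option.elim (encN i) (Pool.Agent.R352.E.zt 2) (yy O) = i.value := by
  cases i with
  | zetaTwo => rfl
  | ratio n r =>
    have h3 := (hO n hi.1).2
    have e1 : 2 * n - 1 + 1 = 2 * n := by omega
    have e2 : n - 1 + 1 = n := by omega
    have h0 : cm (half (some (2 * n - 1, r))) = kappa n r := by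
      show cum (gN (r : ℝ)) ((2 * n - 1 + 1) / 2 - 1 + 1) = kappa n r
      rw [kappa_eq, e1, Nat.mul_div_cancel_left n (by norm_num), e2]
    show yy O (some (2 * n - 1, r)) = T n r
    rw [yy, if_pos ⟨⟨n, hi.1, e1⟩, by rw [h0]; exact hi.2.2⟩, h0]
    show qf ((2 * n - 1 + 1) / 2) * (cum (gN (r : ℝ)) (2 * n - 1 + 1) / kappa n r ^ 2) = T n r
    rw [e1, Nat.mul_div_cancel_left n (by norm_num), ← kappa_eq, T, qf]
  | cumulant n r =>
    have h2 := two_le hO hE hi.1
    have e2 : n - 1 + 1 = n := by omega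
    show yy O (some (n - 1, r)) = kappa n r
    rw [yy, if_neg]
    · show cum (gN (r : ℝ)) (n - 1 + 1) = kappa n r
      rw [e2, kappa_eq]
    · rintro ⟨⟨k, hk, h⟩, -⟩
      exact not_two hO hi.1 k hk (by rw [← h]; exact e2.symm)

include hO hE hOE in
open Pool.Agent.W5h65.NC (IN vld ord) in
theorem encN_valid {i : Name} (hi : i.Valid O E) (k : IN) (h : encN i = some k) : vld k ∧ ord k ∈ O ∪ E := by
  cases i with
  | zetaTwo => simp [encN] at h
  | ratio n r =>
    obtain rfl : some (2 * n - 1, r) = k := by simpa [encN] using h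
    have h3 := (hO n hi.1).2
    refine ⟨hi.2.1, Or.inr ?_⟩
    show 2 * n - 1 + 1 ∈ E
    rw [show 2 * n - 1 + 1 = 2 * n by omega]
    exact hOE n hi.1
  | cumulant n r =>
    obtain rfl : some (n - 1, r) = k := by simpa [encN] using h
    have h2 := two_le hO hE hi.1
    refine ⟨hi.2, ?_⟩
    show n - 1 + 1 ∈ O ∪ E
    rw [show n - 1 + 1 = n by omega]
    rcases hi.1 with h1 | h1
    · exact Or.inl h1
    · exact Or.inr h1.1

include hO hE hOE in
theorem part2 : {i : Name | i.Valid O E ∧ IsAlgebraic (baseField (O ∪ E)) i.value}.encard ≤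
    1 + {n | n ∈ O ∧ ¬ IsAlgebraic (baseField (O ∪ E)) (t n)}.encard := by
  classical
  set K := Pool.Agent.R352.E.clF (Pool.Agent.W5h65.NC.nm ''
    {i | Pool.Agent.W5h65.NC.vld i ∧ Pool.Agent.W5h65.NC.ord i ∉ O ∪ E}) with hK
  have hD : {n | n ∈ O ∧ ¬ IsAlgebraic (baseField (O ∪ E)) (t n)} = {n | n ∈ O ∧ Pool.Agent.W5h65.GS.tt n ∉ K} := by
    ext n
    simp only [mem_ofPred_eq, mem_base]
    rfl
  rw [hD]
  -- reduction to finite sets of names
  have hfin : ∀ s : Finset Name, (s : Set Name) ⊆ {i : Name | i.Valid O E ∧ IsAlgebraic (baseField (O ∪ E)) i.value} →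
      (s.card : ℕ∞) ≤ 1 + {n | n ∈ O ∧ Pool.Agent.W5h65.GS.tt n ∉ K}.encard := by
    intro s hs
    have hinj : Set.InjOn encN (s : Set Name) := fun i hi j hj h => encN_inj hO hE (hs hi).1 (hs hj).1 h
    have h := Pool.Agent.W5h34.NR.count_ratio O E hO hE K rfl (s.image encN) (fun k hk => ?_) (fun k hk => ?_)
    · rwa [Finset.card_image_of_injOn hinj] at h
    · obtain ⟨i, hi, rfl⟩ := Finset.mem_image.1 hk
      rw [encN_value hO hE (hs hi).1]
      exact mem_base.1 (hs hi).2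
    · obtain ⟨i, hi, hik⟩ := Finset.mem_image.1 hk
      exact encN_valid hO hE hOE (hs hi).1 k hik
  rcases eq_or_ne {n | n ∈ O ∧ Pool.Agent.W5h65.GS.tt n ∉ K}.encard ⊤ with htop | htop
  · rw [htop, add_top]; exact le_top
  · obtain ⟨d, hd⟩ := ENat.ne_top_iff_exists.1 htop
    rw [← hd] at hfin ⊢
    have := Pool.Agent.R352.E.encard_le_of_finset
      {i : Name | i.Valid O E ∧ IsAlgebraic (baseField (O ∪ E)) i.value} (1 + d) (fun s hs => by exact_mod_cast hfin s hs)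
    exact_mod_cast this

end

/-- the pairs `(n, r)` with `n` in `O` and `T_r(n)` algebraic over `K` -/
def algebraicPairs (O : Finset ℕ) (K : IntermediateField ℚ ℝ) : Set (ℕ × ℚ) :=
  {p | p.1 ∈ O ∧ kappa p.1 p.2 ≠ 0 ∧ IsAlgebraic K (T p.1 p.2)}

theorem part3 (O : Finset ℕ) (hO : ∀ n ∈ O, Odd n ∧ 3 ≤ n) :
    (algebraicPairs O (baseField ((O : Set ℕ) ∪ (fun n => 2 * n) '' (O : Set ℕ)))).encard ≤ O.card + 1 := by
  classical
  set N : Set ℕ := (O : Set ℕ) ∪ (fun n => 2 * n) '' (O : Set ℕ) with hN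
  set K := baseField N with hK
  have h := part2 (O := (O : Set ℕ)) (E := (fun n => 2 * n) '' (O : Set ℕ)) (fun n hn => hO n hn)
    (by
      rintro _ ⟨n, hn, rfl⟩
      exact ⟨even_two_mul n, by have := (hO n hn).2; show 2 ≤ 2 * n; omega⟩) (fun n hn => ⟨n, hn, rfl⟩)
  rw [← hN, ← hK] at h
  set D : Set ℕ := {n | n ∈ (O : Set ℕ) ∧ ¬ IsAlgebraic K (t n)} with hD
  set A0 : Set ℕ := {n | n ∈ (O : Set ℕ) ∧ IsAlgebraic K (t n)} with hA0
  set A' : Set Name := {i | i.Valid (O : Set ℕ) ((fun n => 2 * n) '' (O : Set ℕ)) ∧ IsAlgebraic K i.value} with hA'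
  have h1 : algebraicPairs O K ⊆ (fun n => ((n, 0) : ℕ × ℚ)) '' A0 ∪
      {p | p ∈ algebraicPairs O K ∧ p.2 ≠ 0} := by
    rintro ⟨n, r⟩ hp
    by_cases hr : r = 0
    · subst hr
      refine Or.inl ⟨n, ⟨hp.1, ?_⟩, rfl⟩
      have h2 := hp.2.2
      rwa [T_zero (by have := (hO n hp.1).2; omega)] at h2
    · exact Or.inr ⟨hp, hr⟩
  have h2 : {p | p ∈ algebraicPairs O K ∧ p.2 ≠ 0}.encard ≤ A'.encard := by
    have hinj : Function.Injective (fun p : ℕ × ℚ => Name.ratio p.1 p.2) := by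
      rintro ⟨n, r⟩ ⟨n', r'⟩ h
      simpa using h
    rw [← hinj.encard_image]
    refine encard_le_encard ?_
    rintro _ ⟨⟨n, r⟩, ⟨hp, hr⟩, rfl⟩
    exact ⟨⟨hp.1, hr, hp.2.1⟩, hp.2.2⟩
  have h3 : A0.encard + D.encard = (O.card : ℕ∞) := by
    rw [← encard_coe_eq_coe_finsetCard, ← encard_union_eq]
    · congr 1
      ext n
      simp only [hA0, hD, mem_union, mem_ofPred_eq]
      tauto
    · rw [Set.disjoint_left]
      rintro n ⟨_, h4⟩ ⟨_, h5⟩
      exact h5 h4
  calc (algebraicPairs O K).encard ≤ ((fun n => ((n, 0) : ℕ × ℚ)) '' A0).encard +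
        {p | p ∈ algebraicPairs O K ∧ p.2 ≠ 0}.encard := (encard_le_encard h1).trans (encard_union_le _ _)
    _ ≤ A0.encard + (1 + D.encard) := add_le_add (encard_image_le _ _) (h2.trans h)
    _ = O.card + 1 := by rw [← h3]; ring

theorem part1 {n : ℕ} (hn : Odd n) (hn3 : 3 ≤ n) :
    {r : ℚ | kappa n r ≠ 0 ∧ IsAlgebraic (baseField {n, 2 * n}) (T n r)}.encard ≤ 2 := by
  have h := part3 {n} (fun k hk => by
    have : k = n := Finset.mem_singleton.1 hk
    rw [this]
    exact ⟨hn, hn3⟩)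
  have e : ((({n} : Finset ℕ) : Set ℕ) ∪ (fun n => 2 * n) '' ((({n} : Finset ℕ) : Set ℕ))) = {n, 2 * n} := by
    rw [Finset.coe_singleton, image_singleton]
    rfl
  rw [e] at h
  have hinj : Function.Injective (fun r : ℚ => ((n, r) : ℕ × ℚ)) := by
    intro r r' h
    simpa using h
  rw [← hinj.encard_image]
  refine (encard_le_encard ?_).trans (h.trans (by simp; norm_num))
  rintro _ ⟨r, hr, rfl⟩
  exact ⟨Finset.mem_singleton_self n, hr.1, hr.2⟩

theorem result :
    -- (0)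
    (∀ n : ℕ, 2 ≤ n → T n 0 = t n ∧ Tendsto (fun r : ℚ => T n r) (𝓝 0) (𝓝 (t n))) ∧
    -- (1)
    (∀ n : ℕ, Odd n → 3 ≤ n →
      {r : ℚ | kappa n r ≠ 0 ∧ IsAlgebraic (baseField {n, 2 * n}) (T n r)}.encard ≤ 2) ∧
    -- (2)
    (∀ O E : Set ℕ, (∀ n ∈ O, Odd n ∧ 3 ≤ n) → (∀ m ∈ E, Even m ∧ 2 ≤ m) → (∀ n ∈ O, 2 * n ∈ E) →
      {i : Name | i.Valid O E ∧ IsAlgebraic (baseField (O ∪ E)) i.value}.encard ≤
        1 + {n | n ∈ O ∧ ¬ IsAlgebraic (baseField (O ∪ E)) (t n)}.encard) ∧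
    -- (3)
    (∀ O : Finset ℕ, (∀ n ∈ O, Odd n ∧ 3 ≤ n) →
      (algebraicPairs O (baseField ((O : Set ℕ) ∪ (fun n => 2 * n) '' (O : Set ℕ)))).encard ≤ O.card + 1) :=
  ⟨fun _ hn => part0 hn, fun _ hn hn3 => part1 hn hn3, fun _ _ hO hE hOE => part2 hO hE hOE, part3⟩

end Pool.Agent.Results.MP_f1a024_nt.NoncentralRatios
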