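import Mathlib
import Pool.Agent.W5h35.GB.Fin

set_option autoImplicit false

/-!
# `ζ(2n) / ζ(n)²` as the value at `α = 0` of an analytic function with transcendental values at algebraic `α`

Let `g(s, α) = (1 + ∑_{k ≥ 1} s (-α)^k / (k! (s + k))) / Γ(s + 1)`. This is Tricomi's incomplete gamma function
`γ*(s, α)`: for `Re s > 0` one has `g(s, α) = (1 / Γ(s)) ∫_0^1 u^(s - 1) e^(-α u) du`; it is `α^(-s) P(s, α)`, where
`P` is the regularized incomplete gamma function (the distribution function of the gamma distribution). Let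

  `λ_n(α)` be the derivative of order `n` of `log g(s, α)` at `s = 0`, and
  `T_α(n) = - ((n - 1)!² / (2n - 1)!) λ_{2n}(α) / λ_n(α)²`.

(1) For `n ≥ 2`, `T_0(n) = t(n) = ζ(2n) / ζ(n)²`, and `T_α(n)` tends to `t(n)` as `α → 0`; `λ_1(0) = γ` and
`λ_n(0) = (-1)^(n - 1) (n - 1)! ζ(n)` for `n ≥ 2`.

Let `Φ` be the field generated by all numbers `e^β`, `β` algebraic (complex). For a set `O` of positive integers let
`K_O` be the field generated by `Φ` and all numbers `λ_m(β) - λ_m(0)`, `β` algebraic and `m ≥ 1` not in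
`O ∪ 2 O`.

(2) The numbers `λ_n(α) - λ_n(0)`, `n ≥ 1`, `α ≠ 0` algebraic, are algebraically independent over `Φ`.

(3) Let `O` be a set of odd integers `n ≥ 3`. The number of pairs `(n, α)`, `n` in `O`, `α` algebraic (`α = 0`
allowed), for which `T_α(n)` is algebraic over `K_O` (and `λ_n(α) ≠ 0`) is at most `|O| + 1`. In particular for every
odd `n ≥ 3` there are at most two such `α`, and if `t(n)` is rational or algebraic then for at most one algebraic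
`α ≠ 0` the number `T_α(n)` is algebraic.

(4) Let `O` be a finite or infinite set of odd integers `n ≥ 3`. Of the numbers `π`, `T_α(n)` and `λ_n(α)`, `n` in `O`,
`α ≠ 0` algebraic (`λ_n(α) ≠ 0` for `T_α(n)`), at most `1 + #{n ∈ O : t(n) is transcendental over K_O}` are algebraic over
`K_O` (numbers of different names are counted separately). In particular at most one of them is, if `t(n)` is
algebraic over `K_O` for all `n` in `O`.
-/

namespace Pool.Agent.Results.MP_f1a024_nt.TricomiRatios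

open Set Filter Topology

/-- `ζ(s) = ∑ 1 / n^s` -/
noncomputable def zeta (s : ℕ) : ℝ := ∑' n : ℕ, 1 / ((n : ℝ) + 1) ^ s

/-- `t(n) = ζ(2n) / ζ(n)²` -/
noncomputable def t (n : ℕ) : ℝ := zeta (2 * n) / zeta n ^ 2

/-- Tricomi's incomplete gamma function `g(s, α)` -/
noncomputable def g (s α : ℂ) : ℂ :=
  (1 + ∑' k : ℕ, s * (-α) ^ (k + 1) / ((k + 1).factorial * (s + (k + 1)))) / Complex.Gamma (s + 1)

/-- `λ_n(α)`, the derivative of order `n` of `log g(s, α)` at `s = 0` -/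
noncomputable def lam (n : ℕ) (α : ℂ) : ℂ := iteratedDeriv n (fun s => Complex.log (g s α)) 0

/-- `T_α(n)` -/
noncomputable def T (n : ℕ) (α : ℂ) : ℂ :=
  -(((n - 1).factorial : ℂ) ^ 2 / ((2 * n - 1).factorial : ℂ)) * (lam (2 * n) α / lam n α ^ 2)

/-- the field `Φ` generated by the numbers `e^β`, `β` algebraic -/
noncomputable def Phi : IntermediateField ℚ ℂ :=
  IntermediateField.adjoin ℚ {z | ∃ β : ℂ, IsAlgebraic ℚ β ∧ z = Complex.exp β}

/-- the field `K_O` -/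
noncomputable def K (O : Set ℕ) : IntermediateField Phi ℂ :=
  IntermediateField.adjoin Phi {x | ∃ m : ℕ, 1 ≤ m ∧ (¬ (m ∈ O ∨ ∃ n ∈ O, m = 2 * n)) ∧
    ∃ β : ℂ, IsAlgebraic ℚ β ∧ x = lam m β - lam m 0}

/-- the pairs `(n, α)`, `n` in `O`, `α` algebraic, with `T_α(n)` defined and algebraic over `K_O` -/
def algebraicRatios (O : Set ℕ) : Set (ℕ × ℂ) :=
  {p | p.1 ∈ O ∧ IsAlgebraic ℚ p.2 ∧ lam p.1 p.2 ≠ 0 ∧ IsAlgebraic (K O) (T p.1 p.2)}

/-- the names of those of the numbers `π` (`none`), `T_α(n)` (left) and `λ_n(α)` (right), `n` in `O`, `α ≠ 0` algebraic,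
which are algebraic over `K_O` -/
def algebraicNames (O : Set ℕ) : Set (Option ((ℕ × ℂ) ⊕ (ℕ × ℂ))) :=
  {i | Option.elim i (IsAlgebraic (K O) (Real.pi : ℂ))
    (Sum.elim
      (fun p => p.1 ∈ O ∧ IsAlgebraic ℚ p.2 ∧ p.2 ≠ 0 ∧ lam p.1 p.2 ≠ 0 ∧ IsAlgebraic (K O) (T p.1 p.2))
      (fun p => p.1 ∈ O ∧ IsAlgebraic ℚ p.2 ∧ p.2 ≠ 0 ∧ IsAlgebraic (K O) (lam p.1 p.2)))}

theorem alg_iff {O : Set ℕ} {x : ℂ} : IsAlgebraic (K O) x ↔ x ∈ Pool.Agent.W5h35.GB.KK O :=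
  Pool.Agent.W5h35.GB.mem_KK.symm

theorem t_eq {n : ℕ} (hn : 2 ≤ n) : T n 0 = ((t n : ℝ) : ℂ) := by
  have h := Pool.Agent.W5h35.GB.Tr_zero hn
  have h2 : T n 0 = Pool.Agent.W5h35.GB.Tr n 0 := rfl
  rw [h2, h, t]
  push_cast
  rfl

theorem names (O : Set ℕ) (hO : ∀ n ∈ O, Odd n ∧ 3 ≤ n) :
    (algebraicNames O).encard ≤ 1 + {n | n ∈ O ∧ ¬ IsAlgebraic (K O) ((t n : ℝ) : ℂ)}.encard := by
  have e : {n | n ∈ O ∧ ¬ IsAlgebraic (K O) ((t n : ℝ) : ℂ)} =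
      {n | n ∈ O ∧ Pool.Agent.W5h35.GB.Tr n 0 ∉ Pool.Agent.W5h35.GB.KK O} := by
    ext n
    refine and_congr_right fun hn => ?_
    rw [← t_eq (show 2 ≤ n by have := (hO n hn).2; omega), alg_iff]
    exact Iff.rfl
  rw [e]
  refine Pool.Agent.W5h35.GB.count_set O hO (algebraicNames O) (fun h => alg_iff.1 h) (fun p h => ?_) (fun p h => ?_)
  · exact ⟨h.1, h.2.1, h.2.2.1, h.2.2.2.1, alg_iff.1 h.2.2.2.2⟩
  · exact ⟨h.1, h.2.1, h.2.2.1, alg_iff.1 h.2.2.2⟩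

theorem ratios (O : Set ℕ) (hO : ∀ n ∈ O, Odd n ∧ 3 ≤ n) : (algebraicRatios O).encard ≤ O.encard + 1 := by
  refine le_trans (encard_le_encard ?_) (Pool.Agent.W5h35.GB.count_ratios O hO)
  rintro p ⟨h1, h2, h3, h4⟩
  exact ⟨h1, h2, h3, alg_iff.1 h4⟩

theorem result :
    -- the integral formula
    (∀ s α : ℂ, 0 < s.re →
      g s α = (∫ u in Ioc (0 : ℝ) 1, (u : ℂ) ^ (s - 1) * Complex.exp (-α * u)) / Complex.Gamma s) ∧
    -- (1)
    (∀ n : ℕ, 2 ≤ n → T n 0 = ((t n : ℝ) : ℂ) ∧ Tendsto (T n) (𝓝 0) (𝓝 ((t n : ℝ) : ℂ)) ∧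
      lam n 0 = (-1) ^ (n - 1) * (n - 1).factorial * ((zeta n : ℝ) : ℂ)) ∧
    lam 1 0 = (Real.eulerMascheroniConstant : ℂ) ∧
    -- (2)
    AlgebraicIndependent Phi
      (fun p : {p : ℕ × ℂ | 1 ≤ p.1 ∧ IsAlgebraic ℚ p.2 ∧ p.2 ≠ 0} => lam p.1.1 p.1.2 - lam p.1.1 0) ∧
    -- (3), (4)
    (∀ O : Set ℕ, (∀ n ∈ O, Odd n ∧ 3 ≤ n) →
      (algebraicRatios O).encard ≤ O.encard + 1 ∧
      (algebraicNames O).encard ≤ 1 + {n | n ∈ O ∧ ¬ IsAlgebraic (K O) ((t n : ℝ) : ℂ)}.encard) := by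
  refine ⟨fun s α hs => Pool.Agent.W5h35.GB.integral_gst hs α, fun n hn => ⟨t_eq hn, ?_, ?_⟩, ?_, ?_, fun O hO =>
    ⟨ratios O hO, names O hO⟩⟩
  · rw [← t_eq hn]
    exact Pool.Agent.W5h35.GB.Tr_tendsto hn
  · exact Pool.Agent.W5h35.GB.lam_zero_zeta' hn
  · exact Pool.Agent.W5h35.GB.lam_one_zero
  · have h := Pool.Agent.W5h35.GB.qf_indep
    have e : (fun p : {p : ℕ × ℂ | 1 ≤ p.1 ∧ IsAlgebraic ℚ p.2 ∧ p.2 ≠ 0} => lam p.1.1 p.1.2 - lam p.1.1 0) =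
        fun p : Pool.Agent.W5h35.GB.VV => Pool.Agent.W5h35.GB.qf p.1.1 p.1.2 := by
      funext p
      obtain ⟨m, hm⟩ : ∃ m, p.1.1 = m + 1 := ⟨p.1.1 - 1, by have := p.2.1; omega⟩
      simp only [hm]
      exact Pool.Agent.W5h35.GB.lam_sub m p.1.2
    rw [e]
    exact h

end Pool.Agent.Results.MP_f1a024_nt.TricomiRatios
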